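import Pool.Agent.R826.LongU

/-!
# A homogeneous non-Hausdorff surface whose non-Hausdorff sets contain the long ray
-/

namespace Pool.Agent.Results.MP_96a9b8_gt.LongRayInNH

open Pool.Agent.R826.LongN Topology

/-- There is a connected, homogeneous, non-Hausdorff topological 2-manifold `M` such that for
every point `z` of `M` the set `NH z` of points not separated from `z` contains a copy of `ω₁` and
a copy of the long ray. -/
theorem result :
    ∃ (M : Type) (_ : TopologicalSpace M), ConnectedSpace M ∧
      (∀ x : M, ∃ U : Set M, IsOpen U ∧ x ∈ U ∧ Nonempty (U ≃ₜ ℝ × ℝ)) ∧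
      ¬ T2Space M ∧
      (∀ x y : M, ∃ h : M ≃ₜ M, h x = y) ∧
      ∀ z : M, HasCopy OmegaOne (NH z) ∧ HasCopy LongRay (NH z) :=
  exists_manifold

end Pool.Agent.Results.MP_96a9b8_gt.LongRayInNH
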